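import Pool.Agent.KS6_47.SJ.JC.Asm
import Pool.Agent.KS6_47.SJ.JC.P_CALC1
import Pool.Agent.KS6_47.SJ.JC.P_CLITS
import Pool.Agent.KS6_47.SJ.JC.P_CODE
import Pool.Agent.KS6_47.SJ.JC.P_COMPR
import Pool.Agent.KS6_47.SJ.JC.P_CON
import Pool.Agent.KS6_47.SJ.JC.P_DDLITS
import Pool.Agent.KS6_47.SJ.JC.P_DECS
import Pool.Agent.KS6_47.SJ.JC.P_FI
import Pool.Agent.KS6_47.SJ.JC.P_HAT
import Pool.Agent.KS6_47.SJ.JC.P_INJ
import Pool.Agent.KS6_47.SJ.JC.P_LIMIT
import Pool.Agent.KS6_47.SJ.JC.P_NPA
import Pool.Agent.KS6_47.SJ.JC.P_OS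
import Pool.Agent.KS6_47.SJ.JC.P_OVER
import Pool.Agent.KS6_47.SJ.JC.P_SAT
import Pool.Agent.KS6_47.SJ.JC.P_SKOL
import Pool.Agent.KS6_47.SJ.JC.P_STR
import Pool.Agent.KS6_47.SJ.JC.P_TY
import Pool.Agent.KS6_47.SJ.JC.P_TYPES

/-!
# Degrees of copies of a nonstandard model of Peano arithmetic

Let `M` be a nonstandard model of PA. A degree `b` is the degree of a copy of `M` if and only if `b`
computes an enumeration of the standard system of `M` and, for some `n`, the `n`-th jump of `b`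
computes the diagram with `n` blocks of quantifiers of some copy of `M`. Hence, if `a` is the degree
of a copy of `M`, `b` computes an enumeration of the standard system, and `a^(n) ≤ b^(n)` for some
`n`, then `b` is the degree of a copy of `M`.

The construction (steps N and 0, and the model theory) is that of the library module
`MP_1f9298_lc.SameJump` by helper623 and others, copied to `Pool.Agent.KS6_47.SJ`; new are the files
`GenK`, `Diag`, `Asm` there and this file.
-/

set_option autoImplicit false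

open FirstOrder FirstOrder.Language Pool.Agent.KS6_47.SJ.H227.EN
open Pool.Agent.KS6_47.SJ.JC Pool.Agent.KS6_47.SJ.H578.JD

namespace Pool.Agent.Results.MP_1f9298_lc.JumpInequality

/-- `b` computes an enumeration of the standard system of `M`. -/
def ComputesEnum (M : Type) [LA.Structure M] (b : TuringDegree) : Prop :=
  ∃ R : Set ℕ, Enum R (SS M) ∧ deg R ≤ b

/-- `a^(n) ≤ b^(n)`. -/
def JumpLe (n : ℕ) (a b : TuringDegree) : Prop :=
  ∃ A B : Set ℕ, deg A = a ∧ deg B = b ∧ deg (jump^[n] A) ≤ deg (jump^[n] B)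

theorem deg_le {A B : Set ℕ} : deg A ≤ deg B ↔ Red A B := Iff.rfl

theorem copy_of {M : Type} [LA.Structure M] (hPA : M ⊨ PA)
    (hns : ¬ Nonempty (@FirstOrder.Language.Equiv LA M ℕ _ stdStr)) (B : Set ℕ)
    (hB : ComputesEnum M (deg B)) (n : ℕ) (g : ℕ → M) (hg : Function.Surjective g)
    (h : deg {z | Sg n g z} ≤ deg (jump^[n] B)) : IsCopyDeg M (deg B) := by
  obtain ⟨i1, i2, i3, i4, hM, hSS⟩ := prf_npa M hPA hns
  obtain ⟨R, hR, hRB⟩ := hB
  rw [hSS] at hR
  obtain ⟨hE, h1, h2⟩ := cup_spec hR (empty_mem_SSp hM) (single_mem_SSp hM) (deg_le.1 hRB)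
  have hbt : S_bt := prf_bt prf_ind
  have hos : S_os := prf_os (prf_over prf_ind)
  have hP : Pack M := pack_of hbt prf_calc1 prf_calc2 hos prf_ddhat prf_CON prf_TY prf_compr
    prf_types (prf_sat_of prf_prim) prf_skol (prf_ddlits prf_prim) prf_wkl prf_prim
    (prf_decs prf_clits) M hM
  have h3 : DecIn (jump^[n] (cup R B)) fun z => Sg n g z := by
    have h4 : Red {z | Sg n g z} (jump^[n] B) := deg_le.1 h
    exact (DecIn.of_red h4).mono (red_jump_iter_mono h2 n)
  obtain ⟨h4, h5⟩ := dec_Ty_of_Sg hM g hg _ n h3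
  obtain ⟨C, hC, hCD, hCR⟩ := main_gen hbt prf_prim (prf_fi prf_limit) prf_clits prf_names
    prf_inj prf_code M hM hP g hg (cup R B) hE n h4 h5
  obtain ⟨A1, hA1, hA1D⟩ := prf_str M C hC
  refine ⟨A1, hA1, ?_⟩
  rw [hA1D, deg_eq]
  exact ⟨Red.trans (Red_iff.2 hCD) h1, Red.trans h2 hCR⟩

theorem of_copy {M : Type} [LA.Structure M] (hPA : M ⊨ PA)
    (hns : ¬ Nonempty (@FirstOrder.Language.Equiv LA M ℕ _ stdStr)) (b : TuringDegree)
    (hb : IsCopyDeg M b) : ComputesEnum M b ∧ ∃ g : ℕ → M, Function.Bijective g ∧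
      deg {p | Sg 0 g p} = b ∧ ∀ n, deg {z | Sg n g z} ≤ deg (jump^[n] {p | Sg 0 g p}) := by
  obtain ⟨i1, i2, i3, i4, hM, hSS⟩ := prf_npa M hPA hns
  obtain ⟨A0, ⟨e⟩, rfl⟩ := hb
  have hD : Dg (fun i => e i) = diag A0 := Dg_equiv M A0 e
  have hD' : {p | Sg 0 (fun i => (e i : M)) p} = {p | diag A0 p = true} := by
    rw [← hD]
    rfl
  have hAD : DecIn {p | diag A0 p = true} fun p => Dg (fun i => e i) p = true := by
    rw [hD]
    exact DecIn.of_red (Red.refl _)
  obtain ⟨R, hR, hRA⟩ := enum_of_copy hM (fun i => e i) e.toEquiv.surjective _ hAD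
  refine ⟨⟨R, by rw [hSS]; exact hR, deg_le.2 hRA⟩, fun i => e i, e.toEquiv.bijective, ?_, ?_⟩
  · rw [hD']
  · intro n
    rw [hD', deg_le]
    exact Red_iff.2 (dec_Sg hM (fun i => e i) e.toEquiv.surjective _ hAD n)

/-- Let `M` be a nonstandard model of Peano arithmetic.

(1) The degree of `B` is the degree of a copy of `M` if and only if it computes an enumeration of the
standard system of `M` and, for some `n`, the `n`-th jump of `B` computes the set of the facts of
level `n` (diagram with `n` blocks of quantifiers) of some enumeration `g` of `M`.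

(2) Every degree of a copy of `M` computes an enumeration of the standard system, and is the degree
of the atomic diagram of a bijection `g : ℕ → M` such that for all `n` its `n`-th jump computes the
facts of level `n` of `g` (so in (1) the condition holds for all `n` if it holds for some `n`).

(3) If `a` is the degree of a copy of `M`, `b` computes an enumeration of the standard system of `M`,
and `a^(n) ≤ b^(n)` for some `n`, then `b` is the degree of a copy of `M`.

(4) (The question.) If `a`, `b` are degrees of enumerations of the standard system of `M`, `a` is the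
degree of a copy of `M` and `a' = b'`, then `b` is the degree of a copy of `M`. -/
theorem result (M : Type) [LA.Structure M] (hPA : M ⊨ PA)
    (hns : ¬ Nonempty (@FirstOrder.Language.Equiv LA M ℕ _ stdStr)) :
    (∀ B : Set ℕ, IsCopyDeg M (deg B) ↔ ComputesEnum M (deg B) ∧
      ∃ (n : ℕ) (g : ℕ → M), Function.Surjective g ∧ deg {z | Sg n g z} ≤ deg (jump^[n] B)) ∧
    (∀ b : TuringDegree, IsCopyDeg M b → ComputesEnum M b ∧
      ∃ g : ℕ → M, Function.Bijective g ∧ deg {p | Sg 0 g p} = b ∧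
        ∀ n, deg {z | Sg n g z} ≤ deg (jump^[n] {p | Sg 0 g p})) ∧
    (∀ a b : TuringDegree, IsCopyDeg M a → ComputesEnum M b → (∃ n, JumpLe n a b) →
      IsCopyDeg M b) ∧
    (∀ a b : TuringDegree, IsEnumDeg M a → IsEnumDeg M b → IsCopyDeg M a → SameJump 1 a b →
      IsCopyDeg M b) := by
  have h3 : ∀ a b : TuringDegree, IsCopyDeg M a → ComputesEnum M b → (∃ n, JumpLe n a b) →
      IsCopyDeg M b := by
    rintro a b ha hb ⟨n, A, B, rfl, rfl, hAB⟩
    obtain ⟨-, g, hg, hgA, hgn⟩ := of_copy hPA hns (deg A) ha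
    refine copy_of hPA hns B hb n g hg.surjective ((hgn n).trans (le_trans ?_ hAB))
    exact deg_le.2 (red_jump_iter_mono (deg_eq.1 hgA).1 n)
  refine ⟨fun B => ⟨fun hB => ?_, fun ⟨hE, n, g, hg, h⟩ => copy_of hPA hns B hE n g hg h⟩,
    fun b hb => of_copy hPA hns b hb, h3, ?_⟩
  · obtain ⟨hE, g, hg, hgB, hgn⟩ := of_copy hPA hns (deg B) hB
    refine ⟨hE, 0, g, hg.surjective, ?_⟩
    exact hgB.le
  · rintro a b - ⟨R, hR, rfl⟩ ha ⟨A, B, rfl, hB, hAB⟩
    refine h3 _ _ ha ⟨R, hR, le_refl _⟩ ⟨1, A, B, rfl, hB, hAB.le⟩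

end Pool.Agent.Results.MP_1f9298_lc.JumpInequality
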